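import Pool.Agent.Work.MP_223b32_es.Interface
import Pool.Agent.Work.MP_223b32_tc_helper50.B0

/-!
# Block B0C: the `L`-function is a polynomial
-/

namespace Pool.Agent.Work.ES

open Finset Polynomial Pool.Agent.Work.TC

namespace B0C

theorem coeff_mon {F : Type} [Field F] (m : ℕ) (c : Fin (m + 1) → F) :
    (mon (m + 1) c).coeff 0 = c 0 := by
  unfold mon
  rw [coeff_add, finsetSum_coeff, Fin.sum_univ_succ]
  have h : ∀ i : Fin m, (C (c i.succ) * X ^ ((i.succ : Fin (m + 1)) : ℕ)).coeff 0 = 0 := by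
    intro i
    rw [coeff_C_mul, coeff_X_pow]
    simp
  rw [Finset.sum_eq_zero (fun i _ => h i)]
  simp

theorem eval_mon {F K : Type} [Field F] [Field K] [Algebra F K] (a : K) (m : ℕ) (c : Fin m → F) :
    aeval a (mon m c) = a ^ m + ∑ i : Fin m, algebraMap F K (c i) * a ^ (i : ℕ) := by
  unfold mon
  simp [map_sum]

theorem surj {F K : Type} [Field F] [Field K] [Algebra F K] [Module.Finite F K] (a : K)
    (ha0 : a ≠ 0) (ha : (minpoly F a).natDegree = Module.finrank F K) (m : ℕ)
    (hm : Module.finrank F K ≤ m) (y : K) :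
    ∃ d : Fin (m + 1) → F, d 0 = 0 ∧
      ∑ i : Fin (m + 1), algebraMap F K (d i) * a ^ (i : ℕ) = y := by
  obtain ⟨c, hc⟩ := TC.B0.surj a ha m hm (y / a)
  refine ⟨Fin.cons 0 c, rfl, ?_⟩
  rw [Fin.sum_univ_succ]
  simp only [Fin.cons_zero, map_zero, zero_mul, zero_add, Fin.cons_succ, Fin.val_succ]
  have : ∑ x : Fin m, algebraMap F K (c x) * a ^ ((x : ℕ) + 1) =
      (∑ x : Fin m, algebraMap F K (c x) * a ^ (x : ℕ)) * a := by
    rw [Finset.sum_mul]
    refine Finset.sum_congr rfl fun i _ => ?_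
    rw [pow_succ, mul_assoc]
  rw [this, hc, div_mul_cancel₀ _ ha0]

end B0C

theorem stmt_B0C : Stmt_B0C := by
  intro F K _ _ _ _ _ _ hchar a ha0 ha ψ _ m hm
  have hfin : Module.Finite F K := Module.Finite.of_finite
  have hcK : ringChar K ≠ 2 := by
    rw [← Algebra.ringChar_eq F K]
    exact hchar
  obtain ⟨m, rfl⟩ : ∃ m', m = m' + 1 := ⟨m - 1, by omega⟩
  have hm' : Module.finrank F K ≤ m := by omega
  have hshift : ∀ y : K, ∑ c : Fin (m + 1) → F,
      (quadraticChar K (aeval a (mon (m + 1) c) + y) : ℂ) * ψ (c 0) =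
        msumC (XX ψ a) (m + 1) := by
    intro y
    obtain ⟨d, hd0, hd⟩ := B0C.surj a ha0 ha m hm' y
    unfold msumC
    refine Fintype.sum_equiv (Equiv.addRight d) _ _ ?_
    intro c
    change _ = (quadraticChar K (aeval a (mon (m + 1) (c + d))) : ℂ) *
      ψ ((mon (m + 1) (c + d)).coeff 0)
    rw [B0C.coeff_mon, Pi.add_apply, hd0, add_zero]
    congr 3
    rw [B0C.eval_mon, B0C.eval_mon, ← hd, add_assoc, ← Finset.sum_add_distrib]
    congr 1
    apply Finset.sum_congr rfl
    intro i _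
    rw [Pi.add_apply, map_add]
    ring
  have h1 : (Fintype.card K : ℂ) * msumC (XX ψ a) (m + 1) = 0 := by
    have h2 : ∑ y : K, ∑ c : Fin (m + 1) → F,
        (quadraticChar K (aeval a (mon (m + 1) c) + y) : ℂ) * ψ (c 0) =
        (Fintype.card K : ℂ) * msumC (XX ψ a) (m + 1) := by
      rw [Finset.sum_congr rfl (fun y _ => hshift y), Finset.sum_const, Finset.card_univ,
        nsmul_eq_mul]
    rw [← h2, Finset.sum_comm]
    apply Finset.sum_eq_zero
    intro c _
    rw [← Finset.sum_mul]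
    have h3 : ∑ y : K, quadraticChar K (aeval a (mon (m + 1) c) + y) =
        ∑ y : K, quadraticChar K y :=
      Fintype.sum_equiv (Equiv.addLeft (aeval a (mon (m + 1) c))) _ _ (fun y => rfl)
    have h4 : ∑ y : K, (quadraticChar K (aeval a (mon (m + 1) c) + y) : ℂ) = 0 := by
      rw [← Int.cast_sum, h3, quadraticChar_sum_zero hcK, Int.cast_zero]
    rw [h4, zero_mul]
  rcases mul_eq_zero.1 h1 with h | h
  · exfalso
    have : Fintype.card K ≠ 0 := Fintype.card_ne_zero
    exact this (by exact_mod_cast h)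
  · exact h

end Pool.Agent.Work.ES
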