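import Pool.Agent.Work.MP_223b32_es.Interface

/-!
# Block CUBC: the number of cube roots
-/

namespace Pool.Agent.Work.ES

open Finset Polynomial

namespace CUBC

theorem card_mod {F E : Type} [Field F] [Fintype F] [Field E] [Fintype E] [Algebra F E]
    (hq : Fintype.card F % 6 = 1) : 3 ∣ Fintype.card E - 1 := by
  have h1 : Fintype.card E = Fintype.card F ^ Module.finrank F E := Module.card_eq_pow_finrank
  have h2 : Fintype.card F ≡ 1 [MOD 3] := by
    unfold Nat.ModEq
    omega
  have h3 : Fintype.card E ≡ 1 [MOD 3] := by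
    rw [h1]
    simpa using h2.pow (Module.finrank F E)
  exact (Nat.modEq_iff_dvd' Fintype.card_pos).1 h3.symm

theorem exists_prim {E : Type} [Field E] [Fintype E] (h : 3 ∣ Fintype.card E - 1) :
    ∃ z : E, IsPrimitiveRoot z 3 := by
  obtain ⟨g, hg⟩ := IsCyclic.exists_ofOrder_eq_natCard (α := Eˣ)
  classical
  have hcard : Nat.card Eˣ = Fintype.card E - 1 := by
    rw [Nat.card_eq_fintype_card, Fintype.card_units]
  obtain ⟨k, hk⟩ := h
  have hpos : 0 < Fintype.card E - 1 := by
    have := Fintype.one_lt_card (α := E)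
    omega
  have hk0 : k ≠ 0 := by
    rintro rfl
    omega
  have h1 : orderOf (g ^ k) = 3 := by
    rw [orderOf_pow, hg, hcard, hk]
    have : Nat.gcd (3 * k) k = k := by
      rw [Nat.gcd_comm]
      exact Nat.gcd_eq_left (Dvd.intro_left 3 rfl)
    rw [this, Nat.mul_div_cancel _ (Nat.pos_of_ne_zero hk0)]
  refine ⟨((g ^ k : Eˣ) : E), ?_⟩
  rw [IsPrimitiveRoot.coe_units_iff]
  rw [← h1]
  exact IsPrimitiveRoot.orderOf _

theorem count {E : Type} [Field E] [Fintype E] [DecidableEq E] (z : E) (hz : IsPrimitiveRoot z 3)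
    (u : E) (hu : u ≠ 0) :
    ((∃ x : E, x ^ 3 = u) → (univ.filter fun x : E => x ^ 3 = u).card = 3) ∧
      ((¬ ∃ x : E, x ^ 3 = u) → (univ.filter fun x : E => x ^ 3 = u).card = 0) := by
  constructor
  · intro h
    have h1 := hz.card_nthRoots u
    rw [if_pos h] at h1
    have h2 := hz.nthRoots_nodup hu
    have h3 : (univ.filter fun x : E => x ^ 3 = u) = (nthRoots 3 u).toFinset := by
      ext x
      rw [Multiset.mem_toFinset, Polynomial.mem_nthRoots (by norm_num)]
      simp
    rw [h3, Multiset.toFinset_card_of_nodup h2, h1]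
  · intro h
    rw [Finset.card_eq_zero, Finset.filter_eq_empty_iff]
    intro x _ hx
    exact h ⟨x, hx⟩

end CUBC

theorem stmt_CUBC : Stmt_CUBC := by
  intro F E _ _ _ _ _ _ hq τ hτ1 hτ3 u
  have hQ : 3 ∣ Fintype.card E - 1 := CUBC.card_mod (F := F) hq
  by_cases hu : u = 0
  · subst hu
    have h1 : (univ.filter fun x : E => x ^ 3 = 0) = {0} := by
      ext x
      simp
    rw [h1, Algebra.norm_zero, MulChar.map_zero, MulChar.map_zero]
    simp
  obtain ⟨z, hz⟩ := CUBC.exists_prim hQ
  obtain ⟨hc1, hc2⟩ := CUBC.count z hz u hu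
  obtain ⟨g, hg⟩ := IsCyclic.exists_generator (α := Eˣ)
  have hgo : orderOf g = Fintype.card E - 1 := by
    rw [orderOf_eq_card_of_forall_mem_zpowers hg, Nat.card_eq_fintype_card, Fintype.card_units]
  have hpow : ∀ x : Eˣ, ∃ k : ℕ, g ^ k = x := by
    intro x
    have hx := hg x
    rw [← mem_powers_iff_mem_zpowers] at hx
    exact hx
  have ht3 : ∀ y : Fˣ, τ (y : F) ^ 3 = 1 := by
    intro y
    have : (τ ^ 3) (y : F) = 1 := by
      rw [hτ3]
      exact MulChar.one_apply_coe y
    rwa [MulChar.pow_apply_coe] at this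
  set t : ℂ := τ ((Units.map (Algebra.norm F (S := E)) g : Fˣ) : F) with ht
  have hτN : ∀ k : ℕ, τ ((Units.map (Algebra.norm F (S := E)) (g ^ k) : Fˣ) : F) = t ^ k := by
    intro k
    rw [map_pow, Units.val_pow_eq_pow_val, map_pow]
  have ht1 : t ≠ 1 := by
    intro h
    apply hτ1
    rw [MulChar.eq_one_iff]
    intro y
    obtain ⟨x, rfl⟩ := FiniteField.unitsMap_norm_surjective F E y
    obtain ⟨k, rfl⟩ := hpow x
    rw [hτN, h, one_pow]
  have htt : t ^ 3 = 1 := ht3 _
  obtain ⟨k, hk⟩ := hpow (Units.mk0 u hu)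
  have huk : u = ((g ^ k : Eˣ) : E) := by
    rw [hk]
    rfl
  have hNu : τ (Algebra.norm F u) = t ^ k := by
    rw [← hτN, huk]
    rfl
  have hNu' : τ⁻¹ (Algebra.norm F u) = (t ^ k)⁻¹ := by
    rw [MulChar.inv_apply_eq_inv', hNu]
  rw [hNu, hNu']
  by_cases h3 : 3 ∣ k
  · obtain ⟨j, rfl⟩ := h3
    have hex : ∃ x : E, x ^ 3 = u := by
      refine ⟨((g ^ j : Eˣ) : E), ?_⟩
      rw [huk, ← Units.val_pow_eq_pow_val, ← pow_mul, mul_comm]
    rw [hc1 hex, pow_mul, htt]
    norm_num
  · have hex : ¬ ∃ x : E, x ^ 3 = u := by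
      rintro ⟨x, hx⟩
      have hx0 : x ≠ 0 := by
        rintro rfl
        apply hu
        rw [← hx]
        norm_num
      obtain ⟨j, hj⟩ := hpow (Units.mk0 x hx0)
      have h1 : g ^ (3 * j) = g ^ k := by
        rw [mul_comm, pow_mul, hj, hk]
        ext
        simpa using hx
      have h2 := pow_eq_pow_iff_modEq.1 h1
      rw [hgo] at h2
      have h4 : 3 * j ≡ k [MOD 3] := h2.of_dvd hQ
      apply h3
      have h5 : 3 * j % 3 = k % 3 := h4
      omega
    rw [hc2 hex]
    have ht0 : t ≠ 0 := by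
      rintro h
      rw [h] at htt
      norm_num at htt
    have hs3 : (t ^ k) ^ 3 = 1 := by
      rw [← pow_mul, mul_comm, pow_mul, htt, one_pow]
    have hs1 : t ^ k ≠ 1 := by
      have h6 : k % 3 = 1 ∨ k % 3 = 2 := by omega
      have h7 : t ^ k = t ^ (k % 3) := by
        conv_lhs => rw [← Nat.div_add_mod k 3, pow_add, pow_mul, htt, one_pow, one_mul]
      rw [h7]
      rcases h6 with h | h
      · rw [h, pow_one]
        exact ht1
      · rw [h]
        intro h8
        apply ht1
        have : t ^ 3 = t ^ 2 * t := by ring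
        rw [htt, h8, one_mul] at this
        exact this.symm
    have hs0 : t ^ k ≠ 0 := pow_ne_zero _ ht0
    generalize t ^ k = s at hs3 hs1 hs0
    have h8 : (s - 1) * (1 + s + s ^ 2) = 0 := by
      linear_combination hs3
    rcases mul_eq_zero.1 h8 with h | h
    · exact absurd (sub_eq_zero.1 h) hs1
    · have h9 : 1 + s + s⁻¹ = (1 + s + s ^ 2) * s⁻¹ := by
        field_simp
        ring
      rw [h9, h]
      simp

end Pool.Agent.Work.ES
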